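import Pool.Agent.N659.HB.Stm

/-!
# Project HB (helper659), task INT: integrals of the weight (helper712)
-/

set_option autoImplicit false

namespace Pool.Agent.N712.HB

open MeasureTheory Filter Pool.Agent.W792.LL Pool.Agent.W792.WA Pool.Agent.N659.HB
open scoped Topology ENNReal

noncomputable section

theorem lap_nn (d : ℕ) (k : UnitAddTorus (Fin d)) : 0 ≤ lap d k ∧ lap d k ≤ 4 * d := by
  have h : ∀ i, 0 ≤ 2 - 2 * (fourier 1 (k i)).re ∧ 2 - 2 * (fourier 1 (k i)).re ≤ 4 := by
    intro i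
    have h1 : |(fourier 1 (k i)).re| ≤ 1 := by
      refine (Complex.abs_re_le_norm _).trans (le_of_eq ?_)
      exact Circle.norm_coe _
    have h2 := abs_le.1 h1
    constructor <;> linarith [h2.1, h2.2]
  show 0 ≤ ∑ i, (2 - 2 * (fourier 1 (k i)).re) ∧ ∑ i, (2 - 2 * (fourier 1 (k i)).re) ≤ 4 * d
  constructor
  · exact Finset.sum_nonneg fun i _ => (h i).1
  · calc ∑ i, (2 - 2 * (fourier 1 (k i)).re) ≤ ∑ _i : Fin d, (4 : ℝ) :=
        Finset.sum_le_sum fun i _ => (h i).2
      _ = 4 * d := by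
        rw [Finset.sum_const, Finset.card_univ, Fintype.card_fin, nsmul_eq_mul, mul_comm]

/-- the level of `x` -/
theorem level (l x : ℝ) (hl : 0 < l) (J : ℕ) (hx : |x| ≤ 3 * l * 2 ^ J) :
    ∃ j ∈ Finset.range (J + 1), |x| ≤ 3 * l * 2 ^ j ∧ 0 ≤ wl l x ∧ wl l x ≤ 4 / (l * 2 ^ j) := by
  by_cases h0 : |x| ≤ 3 * l
  · refine ⟨0, by simp, by simpa using h0, ?_, ?_⟩
    · unfold wl
      rw [if_pos h0]
      positivity
    · unfold wl
      rw [if_pos h0, pow_zero, mul_one]
      exact div_le_div_of_nonneg_right (by norm_num) hl.le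
  · have hex : ∃ j : ℕ, |x| ≤ 3 * l * 2 ^ j := ⟨J, hx⟩
    classical
    set j := Nat.find hex with hj
    have hj1 : |x| ≤ 3 * l * 2 ^ j := Nat.find_spec hex
    have hjJ : j ≤ J := Nat.find_min' hex hx
    have hj0 : j ≠ 0 := by
      intro h
      rw [h, pow_zero, mul_one] at hj1
      exact h0 hj1
    obtain ⟨i, hi⟩ := Nat.exists_eq_succ_of_ne_zero hj0
    have hi1 : ¬ |x| ≤ 3 * l * 2 ^ i := Nat.find_min hex (by omega)
    rw [not_le] at hi1 h0
    have hx0 : 0 < |x| := lt_trans (by positivity) h0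
    refine ⟨j, Finset.mem_range.2 (by omega), hj1, ?_, ?_⟩
    · unfold wl
      rw [if_neg (not_le.2 h0)]
      positivity
    · unfold wl
      rw [if_neg (not_le.2 h0), hi, pow_succ]
      rw [div_le_div_iff₀ hx0 (by positivity)]
      nlinarith

/-- the number of levels -/
theorem levels (d : ℕ) (hd : 2 ≤ d) : ∃ J : ℕ, 2 * (d : ℝ) ^ 2 ≤ 2 ^ J ∧
    (J : ℝ) + 1 ≤ 12 * Real.log d := by
  refine ⟨2 * Nat.clog 2 d + 1, ?_, ?_⟩
  · have h1 : d ≤ 2 ^ Nat.clog 2 d := Nat.le_pow_clog (by norm_num) d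
    have h2 : (d : ℝ) ≤ 2 ^ Nat.clog 2 d := by exact_mod_cast h1
    have h3 : (d : ℝ) ^ 2 ≤ (2 ^ Nat.clog 2 d) ^ 2 := pow_le_pow_left₀ (by positivity) h2 2
    have e : (2 : ℝ) ^ (2 * Nat.clog 2 d + 1) = 2 * (2 ^ Nat.clog 2 d) ^ 2 := by
      rw [pow_succ, mul_comm 2 (Nat.clog 2 d), pow_mul]
      ring
    rw [e]
    linarith
  · have h1 : 2 ^ (Nat.clog 2 d - 1) < d := Nat.pow_pred_clog_lt_self (by norm_num) (by omega)
    have h2 : (2 : ℝ) ^ (Nat.clog 2 d - 1) ≤ d := by exact_mod_cast h1.le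
    have hl2 : (1 / 2 : ℝ) ≤ Real.log 2 := by
      have := Real.log_two_gt_d9
      linarith
    have hld : Real.log 2 ≤ Real.log d :=
      Real.log_le_log (by norm_num) (by exact_mod_cast hd)
    have h3 : ((Nat.clog 2 d - 1 : ℕ) : ℝ) * Real.log 2 ≤ Real.log d := by
      have := Real.log_le_log (by positivity) h2
      rwa [Real.log_pow] at this
    have h4 : 1 ≤ Nat.clog 2 d := Nat.clog_pos (by norm_num) hd
    rw [Nat.cast_sub h4] at h3
    push_cast at h3 ⊢
    nlinarith

theorem main : S_DOSU → S_INT := by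
  rintro ⟨C, d₀, hC, H⟩
  refine ⟨144 * C, max d₀ 2, by positivity, ?_⟩
  intro d hd l E hl hl1 hE0 hE4
  have hd2 : 2 ≤ d := (le_max_right _ _).trans hd
  have hdd : d₀ ≤ d := (le_max_left _ _).trans hd
  have hdR : (2 : ℝ) ≤ d := by exact_mod_cast hd2
  have hsd : 0 < Real.sqrt d := Real.sqrt_pos.2 (by linarith)
  have hl0 : 0 < l := lt_of_lt_of_le (by positivity) hl
  obtain ⟨J, hJ1, hJ2⟩ := levels d hd2
  have hJ3 : 4 * (d : ℝ) ≤ 3 * l * 2 ^ J := by
    have h1 : 1 ≤ l * Real.sqrt d := by rwa [div_le_iff₀ hsd] at hl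
    have h2 : Real.sqrt d ≤ d := by
      rw [Real.sqrt_le_left (by linarith)]
      nlinarith
    have h3 : 1 ≤ l * d := h1.trans (mul_le_mul_of_nonneg_left h2 hl0.le)
    have h4 : 3 * l * (2 * (d : ℝ) ^ 2) ≤ 3 * l * 2 ^ J :=
      mul_le_mul_of_nonneg_left hJ1 (by positivity)
    have h5 : 3 * l * (2 * (d : ℝ) ^ 2) = 6 * (l * d) * d := by ring
    nlinarith
  have hx : ∀ k : UnitAddTorus (Fin d), |lap d k - E| ≤ 3 * l * 2 ^ J := by
    intro k
    obtain ⟨h1, h2⟩ := lap_nn d k
    refine le_trans ?_ hJ3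
    rw [abs_le]
    constructor <;> linarith
  set A : ℕ → Set (UnitAddTorus (Fin d)) := fun j => {k | |lap d k - E| ≤ 3 * l * 2 ^ j} with hA
  have hAm : ∀ j, MeasurableSet (A j) := by
    intro j
    refine (isClosed_le ?_ continuous_const).measurableSet
    exact (((lap d).continuous).sub continuous_const).abs
  have hAv : ∀ j, (volume (A j)).toReal ≤ C * (3 * l * 2 ^ j) / Real.sqrt d := fun j =>
    H d hdd E (3 * l * 2 ^ j) (by positivity)
  -- the integral of a step function
  have key : ∀ a : ℕ → ℝ, (∀ j, 0 ≤ a j) →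
      Integrable (fun k => ∑ j ∈ Finset.range (J + 1), a j * (A j).indicator (fun _ => (1 : ℝ)) k)
        (volume : Measure (UnitAddTorus (Fin d))) ∧
      (∫ k : UnitAddTorus (Fin d), ∑ j ∈ Finset.range (J + 1),
        a j * (A j).indicator (fun _ => (1 : ℝ)) k) ≤
        ∑ j ∈ Finset.range (J + 1), a j * (C * (3 * l * 2 ^ j) / Real.sqrt d) := by
    intro a ha
    have hi : ∀ j, Integrable (fun k => a j * (A j).indicator (fun _ => (1 : ℝ)) k)
        (volume : Measure (UnitAddTorus (Fin d))) := fun j =>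
      ((integrable_const (1 : ℝ)).indicator (hAm j)).const_mul (a j)
    refine ⟨integrable_finset_sum _ fun j _ => hi j, ?_⟩
    rw [integral_finset_sum _ fun j _ => hi j]
    refine Finset.sum_le_sum fun j _ => ?_
    rw [integral_const_mul]
    refine mul_le_mul_of_nonneg_left ?_ (ha j)
    rw [integral_indicator (hAm j), setIntegral_const, smul_eq_mul, mul_one]
    exact hAv j
  constructor
  · obtain ⟨k1, k2⟩ := key (fun j => 4 / (l * 2 ^ j)) (fun j => by positivity)
    have h1 : (∫ k : UnitAddTorus (Fin d), wl l (lap d k - E)) ≤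
        ∫ k : UnitAddTorus (Fin d), ∑ j ∈ Finset.range (J + 1),
          4 / (l * 2 ^ j) * (A j).indicator (fun _ => (1 : ℝ)) k := by
      refine integral_mono_of_nonneg (Eventually.of_forall fun k => ?_) k1
        (Eventually.of_forall fun k => ?_)
      · obtain ⟨j, _, _, h, _⟩ := level l (lap d k - E) hl0 J (hx k)
        exact h
      · obtain ⟨j, hj, hjA, h, h'⟩ := level l (lap d k - E) hl0 J (hx k)
        have hs := Finset.single_le_sum
          (f := fun j => 4 / (l * 2 ^ j) * (A j).indicator (fun _ => (1 : ℝ)) k)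
          (fun j _ => by
            show 0 ≤ 4 / (l * 2 ^ j) * (A j).indicator (fun _ => (1 : ℝ)) k
            have : 0 ≤ (A j).indicator (fun _ => (1 : ℝ)) k :=
              Set.indicator_nonneg (fun _ _ => by norm_num) k
            positivity) hj
        have hk : k ∈ A j := hjA
        refine le_trans ?_ hs
        show wl l (lap d k - E) ≤ 4 / (l * 2 ^ j) * (A j).indicator (fun _ => (1 : ℝ)) k
        rw [Set.indicator_of_mem hk, mul_one]
        exact h'
    refine (h1.trans k2).trans ?_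
    have e : ∀ j ∈ Finset.range (J + 1), 4 / (l * 2 ^ j) * (C * (3 * l * 2 ^ j) / Real.sqrt d) =
        12 * C / Real.sqrt d := by
      intro j _
      field_simp
      ring
    rw [Finset.sum_congr rfl e, Finset.sum_const, Finset.card_range, nsmul_eq_mul]
    push_cast
    rw [← mul_div_assoc]
    refine div_le_div_of_nonneg_right ?_ hsd.le
    have := mul_le_mul_of_nonneg_right hJ2 (by positivity : 0 ≤ 12 * C)
    linarith
  · obtain ⟨k1, k2⟩ := key (fun j => (4 / (l * 2 ^ j)) ^ 2) (fun j => by positivity)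
    have h1 : (∫ k : UnitAddTorus (Fin d), wl l (lap d k - E) ^ 2) ≤
        ∫ k : UnitAddTorus (Fin d), ∑ j ∈ Finset.range (J + 1),
          (4 / (l * 2 ^ j)) ^ 2 * (A j).indicator (fun _ => (1 : ℝ)) k := by
      refine integral_mono_of_nonneg (Eventually.of_forall fun k => by positivity) k1
        (Eventually.of_forall fun k => ?_)
      obtain ⟨j, hj, hjA, h, h'⟩ := level l (lap d k - E) hl0 J (hx k)
      have hs := Finset.single_le_sum
        (f := fun j => (4 / (l * 2 ^ j)) ^ 2 * (A j).indicator (fun _ => (1 : ℝ)) k)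
        (fun j _ => by
          show 0 ≤ (4 / (l * 2 ^ j)) ^ 2 * (A j).indicator (fun _ => (1 : ℝ)) k
          have : 0 ≤ (A j).indicator (fun _ => (1 : ℝ)) k :=
            Set.indicator_nonneg (fun _ _ => by norm_num) k
          positivity) hj
      have hk : k ∈ A j := hjA
      refine le_trans ?_ hs
      show wl l (lap d k - E) ^ 2 ≤ (4 / (l * 2 ^ j)) ^ 2 * (A j).indicator (fun _ => (1 : ℝ)) k
      rw [Set.indicator_of_mem hk, mul_one]
      exact pow_le_pow_left₀ h h' 2
    refine (h1.trans k2).trans ?_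
    have e : ∀ j ∈ Finset.range (J + 1),
        (4 / (l * 2 ^ j)) ^ 2 * (C * (3 * l * 2 ^ j) / Real.sqrt d) =
        48 * C / (l * Real.sqrt d) * (1 / 2) ^ j := by
      intro j _
      rw [div_pow (1 : ℝ), one_pow]
      field_simp
      ring
    rw [Finset.sum_congr rfl e, ← Finset.mul_sum]
    have hg : ∑ j ∈ Finset.range (J + 1), (1 / 2 : ℝ) ^ j ≤ 2 :=
      sum_geometric_two_le _
    have hp : 0 ≤ 48 * C / (l * Real.sqrt d) := by positivity
    refine (mul_le_mul_of_nonneg_left hg hp).trans ?_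
    rw [div_mul_eq_mul_div]
    refine div_le_div_of_nonneg_right ?_ (by positivity)
    linarith

end

end Pool.Agent.N712.HB
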